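import Mathlib
import Pool.Agent.H277R2.OM6
import Pool.Agent.Helper137.KL
import Pool.Agent.Helper137.IA

set_option autoImplicit false

/-!
The sign vectors of a linear subspace of `ι → ℝ` satisfy the covector axioms; a set of
coordinates which is a basis of the coordinate functionals is a basis in the covector sense.
-/

namespace Pool.Agent.K1H22.Div

open Finset Module Filter Topology Pool.Agent.Helper137.Core Pool.Agent.Helper137.KL
open Pool.Agent.H277R2.OM (IsOM Le Bas)

variable {ι : Type*} [Fintype ι] [DecidableEq ι]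

/-- the sign vector of a real vector -/
noncomputable def sg (y : ι → ℝ) : ι → SignType := fun i => SignType.sign (y i)

/-- the sign vectors of `L` -/
def Sg (L : Submodule ℝ (ι → ℝ)) : Set (ι → SignType) := {X | ∃ y ∈ L, sg y = X}

omit [Fintype ι] [DecidableEq ι] in
lemma sg_apply (y : ι → ℝ) (i : ι) : sg y i = SignType.sign (y i) := rfl

omit [Fintype ι] [DecidableEq ι] in
lemma sg_eq_zero (y : ι → ℝ) (i : ι) : sg y i = 0 ↔ y i = 0 := by
  rw [sg_apply, sign_eq_zero_iff]

omit [Fintype ι] [DecidableEq ι] in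
lemma sg_eq_one (y : ι → ℝ) (i : ι) : sg y i = 1 ↔ 0 < y i := by
  rw [sg_apply, sign_eq_one_iff]

omit [Fintype ι] [DecidableEq ι] in
lemma sg_eq_neg (y : ι → ℝ) (i : ι) : sg y i = -1 ↔ y i < 0 := by
  rw [sg_apply, sign_eq_neg_one_iff]


/-- small perturbations -/
lemma small (y z : ι → ℝ) : ∃ ε : ℝ, 0 < ε ∧ ∀ i, (0 < y i → 0 < y i + ε * z i) ∧
    (y i < 0 → y i + ε * z i < 0) := by
  obtain ⟨ε, hε, h⟩ := Pool.Agent.Helper137.IA.perturb univ y z
  exact ⟨ε, hε, fun i => h i (mem_univ i)⟩


theorem Sg_om (L : Submodule ℝ (ι → ℝ)) : IsOM (Sg L) := by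
  refine ⟨⟨0, L.zero_mem, ?_⟩, ?_, ?_, ?_⟩
  · funext i
    simp [sg_apply]
  · rintro _ ⟨y, hy, rfl⟩
    refine ⟨-y, L.neg_mem hy, ?_⟩
    funext i
    simp only [sg_apply, Pi.neg_apply]
    exact Left.sign_neg (y i)
  · rintro _ ⟨y, hy, rfl⟩ _ ⟨z, hz, rfl⟩
    obtain ⟨ε, hε, h⟩ := small y z
    refine ⟨y + ε • z, L.add_mem hy (L.smul_mem _ hz), ?_⟩
    funext i
    have hv : (y + ε • z) i = y i + ε * z i := rfl
    rcases lt_trichotomy (y i) 0 with h1 | h1 | h1
    · have h2 := (h i).2 h1
      rw [Pool.Agent.H277R2.OM.cmp_of_ne (by rw [Ne, sg_eq_zero]; exact h1.ne), (sg_eq_neg y i).2 h1, sg_eq_neg, hv]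
      exact h2
    · rw [Pool.Agent.H277R2.OM.cmp_of_eq (by rw [sg_eq_zero]; exact h1), sg_apply, sg_apply, hv, h1, zero_add]
      rw [sign_mul, sign_pos hε, one_mul]
    · have h2 := (h i).1 h1
      rw [Pool.Agent.H277R2.OM.cmp_of_ne (by rw [Ne, sg_eq_zero]; exact h1.ne'), (sg_eq_one y i).2 h1, sg_eq_one, hv]
      exact h2
  · rintro _ ⟨y, hy, rfl⟩ _ ⟨z, hz, rfl⟩ e he he2
    have hye : y e ≠ 0 := by rwa [Ne, sg_eq_zero] at he
    have hze : z e ≠ 0 := by
      intro h0
      apply hye
      rw [← sg_eq_zero, he2, (sg_eq_zero z e).2 h0]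
      rfl
    refine ⟨sg (|z e| • y + |y e| • z), ⟨_, L.add_mem (L.smul_mem _ hy) (L.smul_mem _ hz), rfl⟩, ?_, ?_⟩
    · rw [sg_eq_zero]
      simp only [Pi.add_apply, Pi.smul_apply, smul_eq_mul]
      rcases lt_or_gt_of_ne hye with h1 | h1
      · have h2 : sg z e = 1 := by
          rw [(sg_eq_neg y e).2 h1] at he2
          have : -(-1 : SignType) = -(-sg z e) := congrArg Neg.neg he2
          rw [neg_neg, neg_neg] at this
          exact this.symm
        rw [sg_eq_one] at h2
        rw [abs_of_neg h1, abs_of_pos h2]; ring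
      · have h2 : sg z e = -1 := by
          rw [(sg_eq_one y e).2 h1] at he2
          rw [he2, neg_neg]
        rw [sg_eq_neg] at h2
        rw [abs_of_pos h1, abs_of_neg h2]; ring
    · intro f hf
      have hv : (|z e| • y + |y e| • z) f = |z e| * y f + |y e| * z f := rfl
      have h1 : 0 < |z e| := abs_pos.2 hze
      have h2 : 0 < |y e| := abs_pos.2 hye
      have h5 : 0 ≤ |z e| := h1.le
      have h6 : 0 ≤ |y e| := h2.le
      rcases lt_trichotomy (y f) 0 with h3 | h3 | h3
      · rw [Pool.Agent.H277R2.OM.cmp_of_ne (by rw [Ne, sg_eq_zero]; exact h3.ne), (sg_eq_neg y f).2 h3, sg_eq_neg, hv]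
        have hz0 : z f ≤ 0 := by
          by_contra hcon
          push Not at hcon
          rcases hf with hf | hf
          · rw [sg_eq_zero] at hf; exact h3.ne hf
          · apply hf
            rw [(sg_eq_neg y f).2 h3, (sg_eq_one z f).2 hcon]
        have := mul_neg_of_pos_of_neg h1 h3
        have := mul_nonpos_of_nonneg_of_nonpos h6 hz0
        linarith
      · rw [Pool.Agent.H277R2.OM.cmp_of_eq (by rw [sg_eq_zero]; exact h3), sg_apply, sg_apply, hv, h3, mul_zero, zero_add]
        rw [sign_mul, sign_pos h2, one_mul]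
      · rw [Pool.Agent.H277R2.OM.cmp_of_ne (by rw [Ne, sg_eq_zero]; exact h3.ne'), (sg_eq_one y f).2 h3, sg_eq_one, hv]
        have hz0 : 0 ≤ z f := by
          by_contra hcon
          push Not at hcon
          rcases hf with hf | hf
          · rw [sg_eq_zero] at hf; exact h3.ne' hf
          · apply hf
            rw [(sg_eq_one y f).2 h3, (sg_eq_neg z f).2 hcon, neg_neg]
        have := mul_pos h1 h3
        have := mul_nonneg h6 hz0
        linarith

/-- There is a basis of the coordinates. -/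
lemma exists_basis (L : Submodule ℝ (ι → ℝ)) (F : Finset ι) :
    ∃ B ⊆ F, (B.card : ℤ) = rk L B ∧ rk L B = rk L F := by
  induction F using Finset.induction_on with
  | empty => exact ⟨∅, subset_rfl, by simp [rk_empty], rfl⟩
  | insert i F hi ih =>
    obtain ⟨B, hB, h1, h2⟩ := ih
    by_cases h : rk L (insert i F) = rk L F
    · exact ⟨B, hB.trans (subset_insert _ _), h1, by rw [h2, h]⟩
    · have hiB : i ∉ B := fun h => hi (hB h)
      have h3 := rk_insert_le L B i
      have h4 := rk_sub L (insert i B) F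
      have e1 : insert i B ∪ F = insert i F := by
        rw [insert_union, union_eq_right.2 hB]
      have e2 : insert i B ∩ F = B := by
        rw [insert_inter_of_notMem hi, inter_eq_left.2 hB]
      rw [e1, e2] at h4
      have h5 := rk_mono L (subset_insert i F)
      have h6 := rk_mono L (insert_subset_insert i hB)
      refine ⟨insert i B, insert_subset_insert i hB, ?_, ?_⟩
      · rw [card_insert_of_notMem hiB]; push_cast; omega
      · omega

theorem exists_bas (L : Submodule ℝ (ι → ℝ)) :
    ∃ B : Finset ι, B.card = finrank ℝ L ∧ Bas (Sg L) B := by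
  obtain ⟨B, -, h1, h2⟩ := exists_basis L univ
  have h3 : rk L univ = finrank ℝ L := by
    unfold rk
    have : Lz L univ = ⊥ := by
      rw [eq_bot_iff]
      rintro y ⟨_, hy2⟩
      simp only [Submodule.mem_bot]
      ext i
      exact hy2 i (mem_univ i)
    rw [this, finrank_bot]; simp
  refine ⟨B, by omega, ?_, ?_⟩
  · intro e he
    obtain ⟨y, hyL, -, hy⟩ := interp L ∅ B (by rw [empty_union, rk_empty]; omega)
      (fun i => if i = e then 1 else 0)
    refine ⟨sg y, ⟨y, hyL, rfl⟩, ?_, ?_⟩
    · rw [Ne, sg_eq_zero, hy e he]; simp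
    · intro f hf hfe
      rw [sg_eq_zero, hy f hf, if_neg hfe]
  · rintro _ ⟨y, hy, rfl⟩ h0
    have : y = 0 := by
      apply inj_of_rk L B (by omega) y hy
      intro i hi
      exact (sg_eq_zero y i).1 (h0 i hi)
    rw [this]
    funext i
    simp [sg_apply]

end Pool.Agent.K1H22.Div
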