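import Mathlib
import Pool.Agent.K1H22.Div.Sg

set_option autoImplicit false

/-! Closure, nullity and core of sets of coordinates; the counting lemma. -/

namespace Pool.Agent.K1H22.Div

open Finset Module Pool.Agent.Helper137.Core Pool.Agent.Helper137.KL

variable {ι : Type*} [Fintype ι] [DecidableEq ι] (L : Submodule ℝ (ι → ℝ))

open Classical in
/-- closure -/
noncomputable def cl (F : Finset ι) : Finset ι := univ.filter (fun i => ∀ y ∈ Lz L F, y i = 0)

lemma mem_cl (F : Finset ι) (i : ι) : i ∈ cl L F ↔ ∀ y ∈ Lz L F, y i = 0 := by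
  simp [cl]

lemma subset_cl (F : Finset ι) : F ⊆ cl L F := by
  intro i hi
  rw [mem_cl]
  exact fun y hy => hy.2 i hi

lemma Lz_cl (F : Finset ι) : Lz L (cl L F) = Lz L F := by
  apply le_antisymm (Lz_anti L (subset_cl L F))
  intro y hy
  exact ⟨hy.1, fun i hi => (mem_cl L F i).1 hi y hy⟩

lemma rk_cl (F : Finset ι) : rk L (cl L F) = rk L F := by
  unfold rk
  rw [Lz_cl]

lemma cl_mono {F G : Finset ι} (h : F ⊆ G) : cl L F ⊆ cl L G := by
  intro i hi
  rw [mem_cl] at hi ⊢
  exact fun y hy => hi y (Lz_anti L h hy)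

lemma rk_le_add_card {F G : Finset ι} (h : F ⊆ G) : rk L G ≤ rk L F + (G \ F).card := by
  have h1 := rk_sub L F (G \ F)
  have h2 := rk_nonneg L (F ∩ (G \ F))
  have h3 := rk_le_card L (G \ F)
  rw [union_sdiff_of_subset h] at h1
  omega

/-- nullity -/
noncomputable def nul (F : Finset ι) : ℤ := F.card - rk L F

lemma nul_nonneg (F : Finset ι) : 0 ≤ nul L F := by
  have := rk_le_card L F
  unfold nul; omega

lemma card_eq_nul (F : Finset ι) : (F.card : ℤ) = nul L F + rk L F := by
  unfold nul; ring

lemma nul_mono {F G : Finset ι} (h : F ⊆ G) : nul L F ≤ nul L G := by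
  have h1 := rk_le_add_card L h
  have h2 := card_sdiff_add_card_eq_card h
  unfold nul; omega

/-- core -/
noncomputable def cor (F : Finset ι) : Finset ι := F \ col L F

lemma mem_cor (F : Finset ι) (i : ι) : i ∈ cor L F ↔ i ∈ F ∧ rk L (F.erase i) = rk L F := by
  unfold cor
  rw [Finset.mem_sdiff, mem_col]
  have := rk_mono L (erase_subset i F)
  constructor
  · rintro ⟨h1, h2⟩
    refine ⟨h1, ?_⟩
    by_contra h3
    exact h2 ⟨h1, by omega⟩
  · rintro ⟨h1, h2⟩
    exact ⟨h1, fun h3 => by omega⟩

lemma cor_subset (F : Finset ι) : cor L F ⊆ F := sdiff_subset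

lemma nul_cor (F : Finset ι) : nul L (cor L F) = nul L F := by
  have h1 := rk_sdiff_col L F (col L F) subset_rfl
  have h2 := card_sdiff_add_card_eq_card (col_subset L F)
  have h3 := rk_le_add_card L (sdiff_subset : F \ col L F ⊆ F)
  have h4 : F \ (F \ col L F) = col L F := by
    rw [Finset.sdiff_sdiff_eq_self (col_subset L F)]
  rw [h4] at h3
  unfold nul cor
  omega

lemma cor_eq_of_nul {F G : Finset ι} (h : F ⊆ G) (hn : nul L G = nul L F) :
    cor L G = cor L F := by
  have h2 := card_sdiff_add_card_eq_card h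
  have hr : rk L G = rk L F + (G \ F).card := by
    unfold nul at hn; omega
  ext i
  rw [mem_cor, mem_cor]
  constructor
  · rintro ⟨h3, h4⟩
    have hiF : i ∈ F := by
      by_contra hiF
      have hsub : F ⊆ G.erase i := by
        intro x hx
        rw [mem_erase]
        exact ⟨fun hxi => hiF (hxi ▸ hx), h hx⟩
      have h5 := rk_le_add_card L hsub
      have h6 : (G.erase i \ F).card + 1 ≤ (G \ F).card := by
        have h7 : G.erase i \ F ⊆ (G \ F).erase i := by
          intro x hx
          rw [Finset.mem_sdiff, mem_erase] at hx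
          rw [mem_erase, Finset.mem_sdiff]
          exact ⟨hx.1.1, hx.1.2, hx.2⟩
        have h8 := card_le_card h7
        have h9 : i ∈ G \ F := Finset.mem_sdiff.2 ⟨h3, hiF⟩
        rw [card_erase_of_mem h9] at h8
        have : 0 < (G \ F).card := card_pos.2 ⟨i, h9⟩
        omega
      omega
    refine ⟨hiF, ?_⟩
    have h5 : rk L (G.erase i) ≤ rk L (F.erase i) + (G \ F).card := by
      have h6 := rk_le_add_card L (erase_subset_erase i h)
      have h7 : G.erase i \ F.erase i ⊆ G \ F := by
        intro x hx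
        rw [Finset.mem_sdiff, mem_erase, mem_erase] at hx
        rw [Finset.mem_sdiff]
        exact ⟨hx.1.2, fun h8 => hx.2 ⟨hx.1.1, h8⟩⟩
      have := card_le_card h7
      omega
    have := rk_mono L (erase_subset i F)
    omega
  · rintro ⟨h3, h4⟩
    refine ⟨h h3, ?_⟩
    have h5 : Lz L (F.erase i) = Lz L F := by
      symm
      apply Submodule.eq_of_le_of_finrank_eq (Lz_anti L (erase_subset i F))
      simp only [rk] at h4; omega
    have h6 : Lz L (G.erase i) = Lz L G := by
      apply le_antisymm _ (Lz_anti L (erase_subset i G))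
      intro y hy
      refine ⟨hy.1, fun j hj => ?_⟩
      by_cases hji : j = i
      · subst hji
        have : y ∈ Lz L F := by
          rw [← h5]
          exact Lz_anti L (erase_subset_erase j h) hy
        exact this.2 j h3
      · exact hy.2 j (mem_erase.2 ⟨hji, hj⟩)
    unfold rk
    rw [h6]

/-- support bound for the vectors vanishing on a set -/
lemma supp_set (k : ℕ)
    (hmd : ∀ z ∈ L, ∀ S : Finset ι, S.card ≤ k + 1 → (∀ i, i ∉ S → z i = 0) → z = 0)
    (hl : finrank ℝ L = k + 1) (Z : Finset ι) (hZ : rk L Z < k + 1) :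
    (Z.card : ℤ) + 2 * (k + 1) ≤ Fintype.card ι + rk L Z := by
  have h1 := supp_bound L k hmd (Lz L Z) (fun z hz => hz.1) (by simp only [rk] at hZ; omega)
    (univ \ Z) (by
      intro z hz i hi
      simp only [Finset.mem_sdiff, mem_univ, true_and, not_not] at hi
      exact hz.2 i hi)
  have h2 := card_sdiff_add_card_eq_card (subset_univ Z)
  rw [card_univ] at h2
  simp only [rk]
  omega

/-- The counting lemma. -/
lemma lemU (k : ℕ)
    (hmd : ∀ z ∈ L, ∀ S : Finset ι, S.card ≤ k + 1 → (∀ i, i ∉ S → z i = 0) → z = 0)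
    (hl : finrank ℝ L = k + 1) (F1 F2 Z K : Finset ι) (hcov : univ \ Z ⊆ F1 ∪ F2)
    (hZ : rk L Z < k + 1) (hK1 : K ⊆ F1) (hK2 : K ⊆ F2) (hn1 : nul L F1 = nul L K)
    (hn2 : nul L F2 = nul L K) (hs : nul L K ≤ k + 1 - rk L Z) :
    2 * ((k : ℤ) + 1) - rk L Z ≤ rk L F1 + rk L F2 := by
  have c1 := card_union_add_card_inter F1 F2
  have c2 : ((univ \ Z) ∪ K).card ≤ (F1 ∪ F2).card :=
    card_le_card (union_subset hcov (hK1.trans subset_union_left))
  have c3 : K.card ≤ (F1 ∩ F2).card := card_le_card (subset_inter hK1 hK2)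
  have c4 : ((univ \ Z) ∪ K).card = (univ \ Z).card + (K ∩ Z).card := by
    rw [← card_union_of_disjoint]
    · congr 1
      ext x
      simp only [mem_union, Finset.mem_sdiff, mem_univ, true_and, mem_inter]
      tauto
    · rw [disjoint_left]
      intro x hx hx2
      exact (Finset.mem_sdiff.1 hx).2 (mem_inter.1 hx2).2
  have c5 : (K ∩ Z).card + (K \ Z).card = K.card := card_inter_add_card_sdiff K Z
  have s1 := supp_set L k hmd hl Z hZ
  have c6 := card_sdiff_add_card_eq_card (subset_univ Z)
  rw [card_univ] at c6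
  have e1 := card_eq_nul L F1
  have e2 := card_eq_nul L F2
  have e3 := card_eq_nul L K
  have n1 := nul_nonneg L K
  have r1 := rk_sub L Z K
  have r2 := rk_nonneg L (Z ∩ K)
  have r3 := rk_nonneg L K
  rcases lt_or_ge (rk L (Z ∪ K)) (k + 1) with h | h
  · have s2 := supp_set L k hmd hl (Z ∪ K) h
    have c7 : (Z ∪ K).card = Z.card + (K \ Z).card := by
      rw [← card_union_of_disjoint disjoint_sdiff, union_sdiff_self_eq_union]
    omega
  · omega

end Pool.Agent.K1H22.Div
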