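import Mathlib
import Pool.Agent.K1H22.Div.Rank

set_option autoImplicit false

/-! The labelling of the sign vectors and Theorem L. -/

namespace Pool.Agent.K1H22.Div

open Finset Module Pool.Agent.Helper137.Core Pool.Agent.Helper137.KL
open Pool.Agent.H277R2.OM (IsOM Le Bas tucker_bas)

variable {ι : Type*} [Fintype ι] [DecidableEq ι]

/-- positive part -/
def Ps (X : ι → SignType) : Finset ι := univ.filter (fun i => X i = 1)
/-- negative part -/
def Ns (X : ι → SignType) : Finset ι := univ.filter (fun i => X i = -1)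
/-- zero part -/
def Zs (X : ι → SignType) : Finset ι := univ.filter (fun i => X i = 0)

omit [DecidableEq ι] in
lemma mem_Ps (X : ι → SignType) (i : ι) : i ∈ Ps X ↔ X i = 1 := by simp [Ps]
omit [DecidableEq ι] in
lemma mem_Ns (X : ι → SignType) (i : ι) : i ∈ Ns X ↔ X i = -1 := by simp [Ns]
omit [DecidableEq ι] in
lemma mem_Zs (X : ι → SignType) (i : ι) : i ∈ Zs X ↔ X i = 0 := by simp [Zs]

lemma sd1 : ∀ a : SignType, -a = 1 ↔ a = -1 := by decide
lemma sd2 : ∀ a : SignType, -a = -1 ↔ a = 1 := by decide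
lemma sd3 : ∀ a : SignType, -a = 0 ↔ a = 0 := by decide
lemma sd4 : ∀ a : SignType, a ≠ 0 → a = 1 ∨ a = -1 := by decide

omit [DecidableEq ι] in
lemma Ps_neg (X : ι → SignType) : Ps (-X) = Ns X := by
  ext i; rw [mem_Ps, mem_Ns, Pi.neg_apply, sd1]
omit [DecidableEq ι] in
lemma Ns_neg (X : ι → SignType) : Ns (-X) = Ps X := by
  ext i; rw [mem_Ps, mem_Ns, Pi.neg_apply, sd2]
omit [DecidableEq ι] in
lemma Zs_neg (X : ι → SignType) : Zs (-X) = Zs X := by
  ext i; rw [mem_Zs, mem_Zs, Pi.neg_apply, sd3]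

lemma cover_PNZ (X : ι → SignType) : univ \ Zs X ⊆ Ps X ∪ Ns X := by
  intro i hi
  rw [Finset.mem_sdiff, mem_Zs] at hi
  rw [mem_union, mem_Ps, mem_Ns]
  exact sd4 _ hi.2

omit [DecidableEq ι] in
lemma Ps_mono {X Y : ι → SignType} (h : Le X Y) : Ps X ⊆ Ps Y := by
  intro i hi
  rw [mem_Ps] at hi ⊢
  rw [h i (by rw [hi]; decide), hi]

omit [DecidableEq ι] in
lemma Ns_mono {X Y : ι → SignType} (h : Le X Y) : Ns X ⊆ Ns Y := by
  intro i hi
  rw [mem_Ns] at hi ⊢
  rw [h i (by rw [hi]; decide), hi]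

omit [DecidableEq ι] in
lemma Zs_anti {X Y : ι → SignType} (h : Le X Y) : Zs Y ⊆ Zs X := by
  intro i hi
  rw [mem_Zs] at hi ⊢
  exact h.zero_of hi

lemma Ps_sg (y : ι → ℝ) : Ps (sg y) = pos y := by
  ext i; rw [mem_Ps, mem_pos, sg_eq_one]
lemma Ns_sg (y : ι → ℝ) : Ns (sg y) = neg y := by
  ext i; rw [mem_Ns, Pool.Agent.Helper137.KL.mem_neg, sg_eq_neg]

/-- code of a set -/
noncomputable def code (A : Finset ι) : ℕ := (Fintype.equivFin (Finset ι) A : ℕ)

omit [DecidableEq ι] in
lemma code_inj [DecidableEq ι] {A B : Finset ι} (h : code A = code B) : A = B := by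
  unfold code at h
  exact (Fintype.equivFin (Finset ι)).injective (Fin.ext h)

/-- antisymmetric sign of two sets -/
noncomputable def sgn (A B : Finset ι) : ZMod 2 := if code A < code B then 1 else 0

lemma sgn_swap {A B : Finset ι} (h : A ≠ B) : sgn B A = 1 + sgn A B := by
  unfold sgn
  have h2 : code A ≠ code B := fun h3 => h (code_inj h3)
  rcases lt_or_gt_of_ne h2 with h3 | h3
  · rw [if_neg (by omega), if_pos h3]; decide
  · rw [if_pos h3, if_neg (by omega)]; decide

variable (L : Submodule ℝ (ι → ℝ))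

/-- rank of a sign vector in `L` -/
noncomputable def rho (X : ι → SignType) : ℕ := finrank ℝ (Lz L (Zs X))

open Classical in
/-- the index -/
noncomputable def idxL (m : ℕ) (X : ι → SignType) : ℕ :=
  if rk L (Ps X) = m ∨ rk L (Ns X) = m then 0
  else min (rho L X) (max (rk L (Ps X) + rk L (Ns X) - m).toNat
    (nul L (cl L (Ps X)) + nul L (cl L (Ns X))).toNat)

open Classical in
/-- the sign -/
noncomputable def sL (m : ℕ) (X : ι → SignType) : ZMod 2 :=
  if rk L (Ps X) = m then 1
  else if rk L (Ns X) = m then 0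
  else if cor L (cl L (Ps X)) ≠ cor L (cl L (Ns X)) then
    sgn (cor L (cl L (Ps X))) (cor L (cl L (Ns X)))
  else if cl L (Ps X) ≠ cl L (Ns X) then sgn (cl L (Ps X)) (cl L (Ns X))
  else sgn (Ps X) (Ns X)

lemma idxL_neg (m : ℕ) (X : ι → SignType) : idxL L m (-X) = idxL L m X := by
  have e : (rk L (Ns X) = m ∨ rk L (Ps X) = m) ↔ (rk L (Ps X) = m ∨ rk L (Ns X) = m) := or_comm
  unfold idxL rho
  rw [Ps_neg, Ns_neg, Zs_neg, add_comm (rk L (Ns X)), add_comm (nul L (cl L (Ns X)))]
  simp only [e]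

lemma rho_eq (X : ι → SignType) : (rho L X : ℤ) = finrank ℝ L - rk L (Zs X) := by
  unfold rho rk; ring

lemma rho_pos {X : ι → SignType} (hX : X ∈ Sg L) (h0 : X ≠ 0) : 0 < rho L X := by
  obtain ⟨y, hy, rfl⟩ := hX
  have hmem : y ∈ Lz L (Zs (sg y)) := ⟨hy, fun i hi => (sg_eq_zero y i).1 ((mem_Zs _ i).1 hi)⟩
  unfold rho
  rw [Module.finrank_pos_iff]
  refine ⟨⟨⟨y, hmem⟩, 0, ?_⟩⟩
  intro h
  apply h0
  have : y = 0 := congrArg Subtype.val h
  rw [this]
  funext i
  simp [sg_apply]

lemma rho_lt {X Y : ι → SignType} (hY : Y ∈ Sg L) (hle : Le X Y) (hne : X ≠ Y) :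
    rho L X < rho L Y := by
  obtain ⟨y, hy, rfl⟩ := hY
  obtain ⟨i, hi1, hi2⟩ : ∃ i, X i = 0 ∧ sg y i ≠ 0 := by
    by_contra hcon
    push Not at hcon
    apply hne
    funext i
    by_cases h : X i = 0
    · rw [h, hcon i h]
    · exact (hle i h).symm
  have hmem : y ∈ Lz L (Zs (sg y)) := ⟨hy, fun i hi => (sg_eq_zero y i).1 ((mem_Zs _ i).1 hi)⟩
  have hlt : Lz L (Zs X) < Lz L (Zs (sg y)) := by
    refine lt_of_le_of_ne (Lz_anti L (Zs_anti hle)) ?_
    intro heq
    rw [← heq] at hmem
    exact hi2 ((sg_eq_zero y i).2 (hmem.2 i ((mem_Zs X i).2 hi1)))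
  exact Submodule.finrank_lt_finrank_of_lt hlt

/-- the sets `Ps X` and `Ns X` are different for nonzero `X` -/
lemma Ps_ne_Ns {X : ι → SignType} (h0 : X ≠ 0) : Ps X ≠ Ns X := by
  intro h
  apply h0
  funext i
  by_contra hi
  rcases sd4 _ hi with h1 | h1
  · have h2 : i ∈ Ns X := by rw [← h, mem_Ps]; exact h1
    rw [mem_Ns, h1] at h2
    exact absurd h2 (by decide)
  · have h2 : i ∈ Ps X := by rw [h, mem_Ns]; exact h1
    rw [mem_Ps, h1] at h2
    exact absurd h2 (by decide)

lemma sL_neg (m : ℕ) (X : ι → SignType) (h0 : X ≠ 0)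
    (hnot : ¬ (rk L (Ps X) = m ∧ rk L (Ns X) = m)) : sL L m (-X) = 1 + sL L m X := by
  unfold sL
  rw [Ps_neg, Ns_neg]
  by_cases h1 : rk L (Ps X) = m
  · have h2 : ¬ rk L (Ns X) = m := fun h => hnot ⟨h1, h⟩
    rw [if_neg h2, if_pos h1, if_pos h1]; decide
  · by_cases h2 : rk L (Ns X) = m
    · rw [if_pos h2, if_neg h1, if_pos h2]; decide
    · rw [if_neg h2, if_neg h1, if_neg h1, if_neg h2]
      by_cases h3 : cor L (cl L (Ps X)) ≠ cor L (cl L (Ns X))
      · rw [if_pos h3, if_pos h3.symm, sgn_swap h3]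
      · rw [if_neg h3, if_neg (fun h => h3 h.symm)]
        by_cases h4 : cl L (Ps X) ≠ cl L (Ns X)
        · rw [if_pos h4, if_pos h4.symm, sgn_swap h4]
        · rw [if_neg h4, if_neg (fun h => h4 h.symm), sgn_swap (Ps_ne_Ns h0)]

/-- Theorem L. -/
theorem thmL (k : ℕ) (hk : 1 ≤ k)
    (hmd : ∀ z ∈ L, ∀ S : Finset ι, S.card ≤ k + 1 → (∀ i, i ∉ S → z i = 0) → z = 0)
    (hl : finrank ℝ L = k + 1) (hnl : ∀ i, ∃ y ∈ L, y i ≠ 0)
    (hn : 2 * Fintype.card ι ≤ 5 * k + 3) :
    ∃ y ∈ L, (∀ i, y i ≠ 0) ∧ (finrank ℝ L : ℤ) + k + 1 ≤ rk L (pos y) + rk L (neg y) := by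
  classical
  by_contra hcon
  have hm : (finrank ℝ L : ℤ) = ((k + 1 : ℕ) : ℤ) := by rw [hl]
  -- no vector with both parts spanning
  have hno : ∀ X ∈ Sg L, ¬ (rk L (Ps X) = ((k + 1 : ℕ) : ℤ) ∧ rk L (Ns X) = ((k + 1 : ℕ) : ℤ)) := by
    rintro _ ⟨y, hy, rfl⟩ ⟨h1, h2⟩
    apply hcon
    obtain ⟨y1, hy1, hs, hg⟩ := perturb L y hy
      (univ.image (fun i => (LinearMap.proj (R := ℝ) (φ := fun _ : ι => ℝ) i))) (by
        intro g hg
        obtain ⟨i, -, rfl⟩ := Finset.mem_image.1 hg
        obtain ⟨v, hv, hvi⟩ := hnl i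
        exact ⟨v, hv, hvi⟩)
    have hne : ∀ i, y1 i ≠ 0 := fun i => hg _ (Finset.mem_image_of_mem _ (Finset.mem_univ i))
    refine ⟨y1, hy1, hne, ?_⟩
    rw [Ps_sg] at h1
    rw [Ns_sg] at h2
    have hp : pos y ⊆ pos y1 := by
      intro i hi
      rw [Pool.Agent.Helper137.KL.mem_pos] at hi ⊢
      exact (mul_pos_iff_of_pos_left hi).1 (hs i hi.ne')
    have hn : neg y ⊆ neg y1 := by
      intro i hi
      rw [Pool.Agent.Helper137.KL.mem_neg] at hi ⊢
      have h3 := hs i hi.ne
      by_contra hcon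
      push Not at hcon
      have := mul_nonpos_of_nonpos_of_nonneg hi.le hcon
      linarith
    have h3 := rk_mono L hp
    have h4 := rk_mono L hn
    rw [hm]
    push_cast at h1 h2 ⊢
    linarith
  -- basic bounds
  have hle1 : ∀ F : Finset ι, rk L F ≤ ((k + 1 : ℕ) : ℤ) := by
    intro F
    have := rk_le L F
    rw [hm] at this
    exact this
  have hnulx : ∀ F : Finset ι, rk L F ≠ ((k + 1 : ℕ) : ℤ) →
      nul L F + 2 * (k + 1) ≤ Fintype.card ι := by
    intro F hF
    have h1 := hle1 F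
    have h2 := supp_set L k hmd hl F (by push_cast at h1 hF; omega)
    unfold nul
    omega
  have hbig : ∀ X ∈ Sg L, X ≠ 0 →
      ((univ \ Zs X).card : ℤ) ≥ k + 1 + rho L X := by
    intro X hX h0
    have h1 := rho_pos L hX h0
    have h2 := rho_eq L X
    have h3 := supp_set L k hmd hl (Zs X) (by omega)
    have h4 := card_sdiff_add_card_eq_card (subset_univ (Zs X))
    rw [card_univ] at h4
    omega
  -- type E elements have large s
  have hE : ∀ X ∈ Sg L, X ≠ 0 → rk L (Ps X) ≠ ((k + 1 : ℕ) : ℤ) → cl L (Ps X) = cl L (Ns X) →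
      (rho L X : ℤ) < nul L (cl L (Ps X)) + nul L (cl L (Ns X)) := by
    intro X hX h0 hP hEq
    have h1 : univ \ Zs X ⊆ cl L (Ps X) := by
      intro i hi
      rcases mem_union.1 (cover_PNZ X hi) with h | h
      · exact subset_cl L _ h
      · rw [hEq]; exact subset_cl L _ h
    have h2 := card_le_card h1
    have h3 := hbig X hX h0
    have h4 := hle1 (Ps X)
    have h5 := rk_cl L (Ps X)
    have h6 := card_eq_nul L (cl L (Ps X))
    rw [← hEq]
    push_cast at h4 hP
    omega
  -- type U elements with small s have large B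
  have hU : ∀ X ∈ Sg L, X ≠ 0 → cor L (cl L (Ps X)) = cor L (cl L (Ns X)) →
      nul L (cl L (Ps X)) + nul L (cl L (Ns X)) ≤ rho L X →
      (k : ℤ) + 1 + rho L X ≤ rk L (Ps X) + rk L (Ns X) := by
    intro X hX h0 hEq hs
    have h1 := rho_pos L hX h0
    have h2 := rho_eq L X
    have e1 := nul_cor L (cl L (Ps X))
    have e2 := nul_cor L (cl L (Ns X))
    rw [← hEq] at e2
    have n1 := nul_nonneg L (cl L (Ps X))
    have h3 := lemU L k hmd hl (cl L (Ps X)) (cl L (Ns X)) (Zs X) (cor L (cl L (Ps X)))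
      ((cover_PNZ X).trans (union_subset_union (subset_cl L _) (subset_cl L _))) (by omega)
      (cor_subset L _) (by rw [hEq]; exact cor_subset L _) e1.symm e2.symm (by omega)
    rw [rk_cl, rk_cl] at h3
    omega
  obtain ⟨B, hBc, hB⟩ := exists_bas L
  have key := tucker_bas (Sg_om L) hB (by omega) (idxL L (k + 1)) (sL L (k + 1))
    (fun X _ _ => idxL_neg L (k + 1) X)
    (fun X hX h0 => sL_neg L (k + 1) X h0 (hno X hX)) ?_ (range k) ?_
  · rw [card_range] at key
    omega
  · -- consistency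
    intro X hX Y hY hX0 hY0 hle hidx
    by_cases hXY : X = Y
    · rw [hXY]
    have hrho := rho_lt L hY hle hXY
    have hrho0 := rho_pos L hX hX0
    have hPm := Ps_mono hle
    have hNm := Ns_mono hle
    have hP := rk_mono L hPm
    have hN := rk_mono L hNm
    have hPc := cl_mono L hPm
    have hNc := cl_mono L hNm
    have hP1 := hle1 (Ps X)
    have hN1 := hle1 (Ns X)
    have hP2 := hle1 (Ps Y)
    have hN2 := hle1 (Ns Y)
    have hnP := nul_mono L hPc
    have hnN := nul_mono L hNc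
    have hnP0 := nul_nonneg L (cl L (Ps X))
    have hnN0 := nul_nonneg L (cl L (Ns X))
    by_cases hXT : rk L (Ps X) = ((k + 1 : ℕ) : ℤ) ∨ rk L (Ns X) = ((k + 1 : ℕ) : ℤ)
    · -- `X` and `Y` both have a spanning part
      have hYT := hno Y hY
      unfold sL
      rcases hXT with h | h
      · rw [if_pos h, if_pos (by omega)]
      · have h1 : rk L (Ns Y) = ((k + 1 : ℕ) : ℤ) := by omega
        have h2 : ¬ rk L (Ps Y) = ((k + 1 : ℕ) : ℤ) := fun h2 => hYT ⟨h2, h1⟩
        rw [if_neg (by omega), if_pos h, if_neg h2, if_pos h1]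
    · have hXi : idxL L (k + 1) X = min (rho L X) (max (rk L (Ps X) + rk L (Ns X) - (k + 1 : ℕ)).toNat
          (nul L (cl L (Ps X)) + nul L (cl L (Ns X))).toNat) := by
        unfold idxL
        rw [if_neg hXT]
      push Not at hXT
      have hXE : cl L (Ps X) ≠ cl L (Ns X) ∨
          (rho L X : ℤ) < nul L (cl L (Ps X)) + nul L (cl L (Ns X)) := by
        by_contra hc
        push Not at hc
        have := hE X hX hX0 hXT.1 hc.1
        omega
      have hXU : cor L (cl L (Ps X)) ≠ cor L (cl L (Ns X)) ∨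
          (rho L X : ℤ) < nul L (cl L (Ps X)) + nul L (cl L (Ns X)) ∨
          (k : ℤ) + 1 + rho L X ≤ rk L (Ps X) + rk L (Ns X) := by
        by_contra hc
        push Not at hc
        have := hU X hX hX0 hc.1 hc.2.1
        omega
      -- the index of `X` is positive
      have hipos : 0 < idxL L (k + 1) X := by
        rw [hXi]
        by_contra hc
        have h1 : nul L (cl L (Ps X)) = 0 := by push_cast at hc; omega
        have h2 : nul L (cl L (Ns X)) = 0 := by push_cast at hc; omega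
        have hc1 : cor L (cl L (Ps X)) = ∅ := by
          have e0 : nul L (∅ : Finset ι) = 0 := by unfold nul; rw [rk_empty]; simp
          rw [cor_eq_of_nul L (empty_subset (cl L (Ps X))) (by rw [h1, e0])]
          exact subset_empty.1 (cor_subset L ∅)
        have hc2 : cor L (cl L (Ns X)) = ∅ := by
          have e0 : nul L (∅ : Finset ι) = 0 := by unfold nul; rw [rk_empty]; simp
          rw [cor_eq_of_nul L (empty_subset (cl L (Ns X))) (by rw [h2, e0])]
          exact subset_empty.1 (cor_subset L ∅)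
        rcases hXU with h3 | h3 | h3
        · exact h3 (by rw [hc1, hc2])
        · omega
        · push_cast at hc
          omega
      by_cases hYT : rk L (Ps Y) = ((k + 1 : ℕ) : ℤ) ∨ rk L (Ns Y) = ((k + 1 : ℕ) : ℤ)
      · exfalso
        have : idxL L (k + 1) Y = 0 := by
          unfold idxL
          rw [if_pos hYT]
        omega
      have hYi : idxL L (k + 1) Y = min (rho L Y) (max (rk L (Ps Y) + rk L (Ns Y) - (k + 1 : ℕ)).toNat
          (nul L (cl L (Ps Y)) + nul L (cl L (Ns Y))).toNat) := by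
        unfold idxL
        rw [if_neg hYT]
      push Not at hYT
      have hYE : cl L (Ps Y) ≠ cl L (Ns Y) ∨
          (rho L Y : ℤ) < nul L (cl L (Ps Y)) + nul L (cl L (Ns Y)) := by
        by_contra hc
        push Not at hc
        have := hE Y hY hY0 hYT.1 hc.1
        omega
      rw [hXi] at hipos
      rw [hXi, hYi] at hidx
      push_cast at hidx hipos
      have hXE' : cl L (Ps X) ≠ cl L (Ns X) := by
        rcases hXE with h | h
        · exact h
        · exfalso; omega
      have hYE' : cl L (Ps Y) ≠ cl L (Ns Y) := by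
        rcases hYE with h | h
        · exact h
        · exfalso; omega
      -- closures are equal as soon as the ranks are
      have hclP : rk L (Ps Y) = rk L (Ps X) → cl L (Ps Y) = cl L (Ps X) := by
        intro h
        have h1 : Lz L (Ps Y) = Lz L (Ps X) := by
          apply Submodule.eq_of_le_of_finrank_eq (Lz_anti L hPm)
          simp only [rk] at h; omega
        unfold cl
        rw [h1]
      have hclN : rk L (Ns Y) = rk L (Ns X) → cl L (Ns Y) = cl L (Ns X) := by
        intro h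
        have h1 : Lz L (Ns Y) = Lz L (Ns X) := by
          apply Submodule.eq_of_le_of_finrank_eq (Lz_anti L hNm)
          simp only [rk] at h; omega
        unfold cl
        rw [h1]
      have hfin : cor L (cl L (Ps Y)) = cor L (cl L (Ps X)) → cor L (cl L (Ns Y)) = cor L (cl L (Ns X)) →
          (cor L (cl L (Ps X)) ≠ cor L (cl L (Ns X)) ∨
            (cl L (Ps Y) = cl L (Ps X) ∧ cl L (Ns Y) = cl L (Ns X))) → sL L (k+1) X = sL L (k+1) Y := by
        intro h1 h2 h3
        unfold sL
        rw [if_neg hXT.1, if_neg hXT.2, if_neg hYT.1, if_neg hYT.2, h1, h2]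
        rcases h3 with h3 | h3
        · rw [if_pos h3, if_pos h3]
        · rw [h3.1, h3.2, if_pos hXE', if_pos hXE']
      have hsame : rk L (Ps Y) = rk L (Ps X) → rk L (Ns Y) = rk L (Ns X) →
          sL L (k+1) X = sL L (k+1) Y := by
        intro h1 h2
        have h3 := hclP h1
        have h4 := hclN h2
        exact hfin (by rw [h3]) (by rw [h4]) (Or.inr ⟨h3, h4⟩)
      by_cases hS : nul L (cl L (Ps Y)) + nul L (cl L (Ns Y)) =
          nul L (cl L (Ps X)) + nul L (cl L (Ns X))
      · -- cores are equal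
        have h1 := cor_eq_of_nul L hPc (by omega)
        have h2 := cor_eq_of_nul L hNc (by omega)
        by_cases hD : cor L (cl L (Ps X)) ≠ cor L (cl L (Ns X))
        · exact hfin h1 h2 (Or.inl hD)
        · rcases hXU with h3 | h3 | h3
          · exact absurd h3 hD
          · exfalso; omega
          · exact hsame (by omega) (by omega)
      · exact hsame (by omega) (by omega)
  · -- range
    intro X hX hX0
    rw [mem_range]
    unfold idxL
    split_ifs with h
    · omega
    · push Not at h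
      have h1 := hnulx (cl L (Ps X)) (by rw [rk_cl]; exact h.1)
      have h2 := hnulx (cl L (Ns X)) (by rw [rk_cl]; exact h.2)
      have h3 := hle1 (Ps X)
      have h4 := hle1 (Ns X)
      have h5 := h.1
      have h6 := h.2
      push_cast at h3 h4 h5 h6 ⊢
      omega

end Pool.Agent.K1H22.Div
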