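import Mathlib
import Pool.Agent.K1H22.Div.Lab
import Pool.Agent.Helper137.IB

set_option autoImplicit false

/-! The recursion and the upper bound. -/

namespace Pool.Agent.K1H22.Div

open Finset Module Pool.Agent.Helper137.Core Pool.Agent.Helper137.KL
open Pool.Agent.Helper137.Dep Pool.Agent.Helper137.Rec
open Pool.Agent.Helper137.IB (simple_case)

variable {E : Type} [NormedAddCommGroup E] [NormedSpace ℝ E] [FiniteDimensional ℝ E] [DecidableEq E]

/-- The recursion. -/
theorem recE (k : ℕ) (hk : 2 ≤ k) : ∀ n : ℕ, ∀ S : Finset E, S.card = n → KIndep k S →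
    k + 1 ≤ finrank ℝ (dep S) → S.card ≤ 2 * finrank ℝ (dep S) + (k - 1) / 2 → Div2 k S := by
  classical
  intro n
  induction n using Nat.strong_induction_on with
  | _ n ih =>
  intro S hSn hS hl hn
  have hmd := hmd_of_KIndep k S hS
  have hLz1 : ∀ x : S, finrank ℝ (dep S) ≤ finrank ℝ (Lz (dep S) {x}) + 1 := by
    intro x
    have := rk_insert_le (dep S) ∅ x
    have e1 : (insert x ∅ : Finset S) = {x} := by ext z; simp
    rw [rk_empty, e1] at this
    simp only [rk] at this
    omega
  by_cases hnl : ∀ i : S, ∃ y ∈ dep S, y i ≠ 0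
  swap
  · push Not at hnl
    obtain ⟨i, hi⟩ := hnl
    have h1 : dep S ≤ Lz (dep S) {i} := by
      intro y hy
      refine ⟨hy, ?_⟩
      intro j hj
      rw [mem_singleton] at hj
      rw [hj]; exact hi y hy
    have h2 := Submodule.finrank_mono h1
    have h3 := finrank_sub S {i}
    have h4 : (S \ pts S {i}).card + 1 = S.card := by
      have : pts S {i} = {(i : E)} := by simp [pts]
      rw [this, card_sdiff_of_subset (by simp)]
      have : 0 < S.card := card_pos.mpr ⟨i, i.2⟩
      simp only [card_singleton]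
      omega
    exact Div2.mono (ih (S \ pts S {i}).card (by omega) _ rfl (hS.mono sdiff_subset) (by omega)
      (by omega)) sdiff_subset
  by_cases hdist : ∀ i j : S, i ≠ j → ∀ c : ℝ, 0 < c → ∃ y ∈ dep S, y j ≠ c * y i
  · -- simple case
    obtain ⟨y, hy, hnz, hr⟩ := simple_case (dep S) k hnl hdist hmd hl
    exact geoDim S k (by omega) y hy hnz hr
  · push Not at hdist
    obtain ⟨i, j, hij, c, hc, hpar⟩ := hdist
    have h1 : Lz (dep S) {i} ≤ Lz (dep S) {i, j} := by
      intro y hy
      refine ⟨hy.1, ?_⟩
      intro x hx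
      have hyi : y i = 0 := hy.2 i (mem_singleton_self _)
      rw [mem_insert, mem_singleton] at hx
      rcases hx with rfl | rfl
      · exact hyi
      · rw [hpar y hy.1, hyi, mul_zero]
    have h2 := Submodule.finrank_mono h1
    have h3 := finrank_sub S {i, j}
    have h5 := hLz1 i
    have hpts : pts S {i, j} = {(i : E), (j : E)} := by simp [pts]
    have hijE : (i : E) ≠ j := fun h => hij (Subtype.ext h)
    have h4 : (S \ pts S {i, j}).card + 2 = S.card := by
      rw [hpts, card_sdiff_of_subset (by
        intro x hx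
        rw [mem_insert, mem_singleton] at hx
        rcases hx with rfl | rfl
        · exact i.2
        · exact j.2), card_pair hijE]
      have : 1 < S.card := one_lt_card.mpr ⟨i, i.2, j, j.2, hijE⟩
      omega
    by_cases hl2 : k + 2 ≤ finrank ℝ (dep S)
    · exact Div2.mono (ih (S \ pts S {i, j}).card (by omega) _ rfl (hS.mono sdiff_subset) (by omega)
        (by omega)) sdiff_subset
    · -- finrank = k + 1
      have hl3 : finrank ℝ (dep S) = k + 1 := by omega
      obtain ⟨y, hy, hnz, hr⟩ := thmL (dep S) k (by omega) hmd hl3 hnl (by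
        rw [Fintype.card_coe]; omega)
      exact geoDim S k (by omega) y hy hnz hr

/-- Upper bound. -/
theorem upperE (d k : ℕ) (hk : 2 ≤ k) (hkd : k + 1 ≤ d) (hE : finrank ℝ E = d) (S : Finset E)
    (hS : KIndep k S) (hc : max (2 * d + 2 - (k - 1) / 2) (d + k + 2) ≤ S.card) : Div2 k S := by
  obtain ⟨T, hT, hTc⟩ := exists_subset_card_eq hc
  refine Div2.mono ?_ hT
  have hdim : T.card ≤ finrank ℝ (dep T) + (d + 1) := by
    have h1 := LinearMap.finrank_range_add_finrank_ker (depMap T)
    have h2 : finrank ℝ (LinearMap.range (depMap T)) ≤ finrank ℝ (ℝ × E) :=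
      Submodule.finrank_le _
    rw [Module.finrank_prod, finrank_self, hE] at h2
    have h3 : finrank ℝ (T → ℝ) = T.card := by
      rw [Module.finrank_fintype_fun_eq_card, Fintype.card_coe]
    rw [h3] at h1
    change T.card ≤ finrank ℝ (LinearMap.ker (depMap T)) + (d + 1)
    omega
  exact recE k hk _ T rfl (hS.mono hT) (by omega) (by omega)

end Pool.Agent.K1H22.Div
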